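import Pool.Agent.R814.BL.IcoPos

/-!
# The Birkhoff-Lewis conjecture for graphs whose only minor of minimum degree five is the icosahedron

If every minor of `G` has a vertex of degree at most four or is the icosahedron, then the chromatic
polynomial of `G` is positive on `(4, ∞)`.
-/

set_option autoImplicit false

namespace Pool.Agent.Results.MP_0d034c_co.IcosahedralMinors

open Polynomial

/-- The neighbours of the vertices `0, …, 11` of the icosahedron: `0` and `11` are opposite, the
neighbours of `0` form the cycle `1, 2, 3, 4, 5` and those of `11` the cycle `6, 7, 8, 9, 10`. -/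
def neighbours : List (List ℕ) :=
  [[1, 2, 3, 4, 5], [0, 2, 5, 6, 7], [0, 1, 3, 7, 8], [0, 2, 4, 8, 9], [0, 3, 5, 9, 10],
    [0, 1, 4, 6, 10], [1, 5, 7, 10, 11], [1, 2, 6, 8, 11], [2, 3, 7, 9, 11], [3, 4, 8, 10, 11],
    [4, 5, 6, 9, 11], [6, 7, 8, 9, 10]]

/-- the graph of the icosahedron -/
def icosahedron : SimpleGraph (Fin 12) where
  Adj i j := (neighbours.getD i.val []).contains j.val = true
  symm := ⟨by decide⟩
  loopless := ⟨by decide⟩

/-- `B` is a nonempty set of vertices, any two of which are joined by a walk inside `B`. -/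
def ConnSet {V : Type} (G : SimpleGraph V) (B : Set V) : Prop :=
  B.Nonempty ∧ ∀ x ∈ B, ∀ y ∈ B, ∃ w : G.Walk x y, ∀ z ∈ w.support, z ∈ B

/-- The graph with vertices `0, …, k - 1` in which `i ≠ j` are adjacent if some edge of `G` joins
`B i` to `B j`. If the sets `B i` are connected and pairwise disjoint, these are the minors of `G`
(up to the deletion of edges). -/
def contracted {V : Type} (G : SimpleGraph V) {k : ℕ} (B : Fin k → Set V) :
    SimpleGraph (Fin k) where
  Adj i j := i ≠ j ∧ ∃ x ∈ B i, ∃ y ∈ B j, G.Adj x y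
  symm := ⟨fun _ _ h => ⟨h.1.symm, by
    obtain ⟨x, hx, y, hy, hxy⟩ := h.2
    exact ⟨y, hy, x, hx, hxy.symm⟩⟩⟩
  loopless := ⟨fun _ h => h.1 rfl⟩

/-- Let `G` be a finite graph (planar or not) such that every minor of `G` has a vertex of degree at
most four or is isomorphic to the icosahedron: for any `k ≥ 1` pairwise disjoint connected sets of
vertices, the contracted graph has a vertex of degree at most four or is the icosahedron. Then the
chromatic polynomial of `G` is positive at every real `q > 4`. Moreover the chromatic polynomial of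
the icosahedron is `q (q-1) (q-2) (q-3)` times a polynomial in `q - 4` with positive coefficients. -/
theorem result :
    (∀ (V : Type) [Finite V] (G : SimpleGraph V),
      (∀ (k : ℕ) (B : Fin k → Set V), 0 < k → (∀ i, ConnSet G (B i)) →
        (∀ i j, i ≠ j → Disjoint (B i) (B j)) →
        (∃ i, ((contracted G B).neighborSet i).ncard ≤ 4) ∨
          Nonempty (contracted G B ≃g icosahedron)) →
      ∀ p : ℝ[X], (∀ k : ℕ, p.eval (k : ℝ) = (Nat.card (G.Coloring (Fin k)) : ℝ)) →
        ∀ q : ℝ, 4 < q → 0 < p.eval q) ∧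
    (∀ p : ℝ[X], (∀ k : ℕ, p.eval (k : ℝ) = (Nat.card (icosahedron.Coloring (Fin k)) : ℝ)) →
      ∀ q : ℝ, p.eval q = q * (q - 1) * (q - 2) * (q - 3) * (10 + 48 * (q - 4) +
        128 * (q - 4) ^ 2 + 190 * (q - 4) ^ 3 + 159 * (q - 4) ^ 4 + 90 * (q - 4) ^ 5 +
        36 * (q - 4) ^ 6 + 8 * (q - 4) ^ 7 + (q - 4) ^ 8)) := by
  constructor
  · intro V _ G h p hp q hq
    exact Pool.Agent.R814.BL.ico_main G h p hp q hq
  · intro p hp q
    exact Pool.Agent.R814.BL.ico_eval p hp q

end Pool.Agent.Results.MP_0d034c_co.IcosahedralMinors
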