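import Pool.Agent.R814.BL.Main

/-!
# Sharp Kempe inequalities and chromatic roots of planar graphs near five

For every planar graph on `n` vertices the interval `(5 - 5/(3n), ∞)` contains no chromatic root; and
`n` can be replaced by the number of vertices of the largest minor of minimum degree five.
-/

set_option autoImplicit false

namespace Pool.Agent.Results.MP_0d034c_co.KempeRatio

open Polynomial

/-- `G` can be drawn in the plane with non-crossing arcs: vertices are distinct points, every edge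
is an arc (an injective continuous curve) joining its two ends and avoiding all vertices in between,
and arcs of different edges do not meet in between. -/
def Planar {V : Type} (G : SimpleGraph V) : Prop :=
  ∃ (f : V → ℝ × ℝ) (γ : V → V → ℝ → ℝ × ℝ),
    Function.Injective f ∧
    (∀ u v : V, G.Adj u v →
      ContinuousOn (γ u v) (Set.Icc (0:ℝ) 1) ∧ Set.InjOn (γ u v) (Set.Icc (0:ℝ) 1) ∧
      γ u v 0 = f u ∧ γ u v 1 = f v ∧
      ∀ t ∈ Set.Ioo (0:ℝ) 1, ∀ w : V, γ u v t ≠ f w) ∧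
    (∀ u v u' v' : V, G.Adj u v → G.Adj u' v' → s(u, v) ≠ s(u', v') →
      ∀ t ∈ Set.Ioo (0:ℝ) 1, ∀ t' ∈ Set.Ioo (0:ℝ) 1, γ u v t ≠ γ u' v' t')

/-- `B` is a nonempty set of vertices, any two of which are joined by a walk inside `B`. -/
def ConnSet {V : Type} (G : SimpleGraph V) (B : Set V) : Prop :=
  B.Nonempty ∧ ∀ x ∈ B, ∀ y ∈ B, ∃ w : G.Walk x y, ∀ z ∈ w.support, z ∈ B

/-- Every minor of `G` with more than `m` vertices has a vertex of degree at most four: whenever
`k > m` pairwise disjoint connected sets of vertices are given, one of them is joined by edges of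
`G` to at most four of the others. (So `m` bounds the number of vertices of every minor of minimum
degree at least five.) -/
def DegFourAbove (m : ℕ) {V : Type} (G : SimpleGraph V) : Prop :=
  ∀ (k : ℕ) (B : Fin k → Set V), m < k → (∀ i, ConnSet G (B i)) →
    (∀ i j, i ≠ j → Disjoint (B i) (B j)) →
    ∃ i, {j | j ≠ i ∧ ∃ x ∈ B i, ∃ y ∈ B j, G.Adj x y}.ncard ≤ 4

/-- Let `G` be a planar graph with `n` vertices and `P` its chromatic polynomial.
(1) `8 P(G - v, 5) ≤ 9 P(G, 5)` if `v` has degree five and `4 P(G - v, 5) ≤ 3 P(G, 5)` if `v` has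
degree four.
(2) If every minor of `G` with more than `m` vertices has a vertex of degree at most four, then
`P(q) > 0` for all real `q > 4` with `q > 5 - 5/(3m)`.
(3) `P(q) > 0` for all real `q > 5 - 5/(3n)`, and for `5 - 5/(3n) ≤ q ≤ 5` one has
`(1 - (3/5) n (5 - q)) P(5) ≤ P(q) ≤ P(5)`.
(4) `P(z) ≠ 0` for all complex `z` with `3 n |z - 5| < 5 log 2`. -/
theorem result (V : Type) [Finite V] (G : SimpleGraph V) (hG : Planar G) (p : ℝ[X])
    (hp : ∀ k : ℕ, p.eval (k : ℝ) = (Nat.card (G.Coloring (Fin k)) : ℝ)) :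
    (∀ v : V, (G.neighborSet v).ncard = 5 →
      8 * Nat.card ((G.comap (Subtype.val : {x : V // x ≠ v} → V)).Coloring (Fin 5)) ≤
        9 * Nat.card (G.Coloring (Fin 5))) ∧
    (∀ v : V, (G.neighborSet v).ncard = 4 →
      4 * Nat.card ((G.comap (Subtype.val : {x : V // x ≠ v} → V)).Coloring (Fin 5)) ≤
        3 * Nat.card (G.Coloring (Fin 5))) ∧
    (∀ m : ℕ, DegFourAbove m G → ∀ q : ℝ, 4 < q → 3 * m * (5 - q) < 5 → 0 < p.eval q) ∧
    (∀ q : ℝ, 5 - 5 / (3 * (Nat.card V : ℝ)) < q → 0 < p.eval q) ∧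
    (∀ q : ℝ, 5 - 5 / (3 * (Nat.card V : ℝ)) ≤ q → q ≤ 5 →
      (1 - 3 / 5 * Nat.card V * (5 - q)) * p.eval 5 ≤ p.eval q ∧ p.eval q ≤ p.eval 5) ∧
    (∀ z : ℂ, 3 * Nat.card V * ‖z - 5‖ < 5 * Real.log 2 → aeval z p ≠ 0) := by
  obtain ⟨f, γ, h1, h2, h3⟩ := hG
  have hW : Pool.Agent.R814.BL.Cl V G :=
    ⟨Pool.Agent.Y865.RF.pl V G f γ ⟨h1, h2, h3⟩, Pool.Agent.R814.BL.pl33 V G f γ ⟨h1, h2, h3⟩⟩
  exact Pool.Agent.R814.BL.final' G hW p hp
end Pool.Agent.Results.MP_0d034c_co.KempeRatio
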